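import Pool.Agent.N718.GC.Stm
import Pool.Agent.N281.DC.POS

/-!
Project GC (helper718), part BOXG (helper919): families close to a ray in a residue class.
-/

set_option autoImplicit false

namespace Pool.Agent.N919.GC

open Finset Pool.Agent.N718.DC Pool.Agent.N718.GC Pool.Agent.N281.DC.POSaux

theorem boxg_ : S_BOXG := by
  classical
  intro ι _ _ e v ε hε
  obtain ⟨V, hV⟩ : ∃ V : ℝ, V = 1 + ∑ k, ∑ j, |v k j| := ⟨_, rfl⟩
  have hVk : ∀ k j, |v k j| ≤ V := by
    intro k j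
    have h1 : |v k j| ≤ ∑ j', |v k j'| :=
      single_le_sum (f := fun j' => |v k j'|) (fun _ _ => abs_nonneg _) (mem_univ j)
    have h2 : ∑ j', |v k j'| ≤ ∑ k', ∑ j', |v k' j'| :=
      single_le_sum (f := fun k' => ∑ j', |v k' j'|)
        (fun _ _ => sum_nonneg fun _ _ => abs_nonneg _) (mem_univ k)
    rw [hV]
    linarith
  have hV1 : 1 ≤ V := by
    have : 0 ≤ ∑ k, ∑ j, |v k j| := sum_nonneg fun _ _ => sum_nonneg fun _ _ => abs_nonneg _
    rw [hV]
    linarith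
  have hVe : 0 < V + ε := by linarith
  obtain ⟨θ, hθ⟩ : ∃ θ : ℝ, θ = ε / (V + ε) := ⟨_, rfl⟩
  have hθ0 : 0 < θ := by rw [hθ]; positivity
  have hθV : θ * (V + ε) = ε := by rw [hθ]; field_simp
  refine ⟨(θ / 3) ^ ncI e, by positivity, ?_⟩
  intro M hM γ
  have hM0 : (0 : ℝ) < M := by exact_mod_cast hM
  refine ⟨⌈M / θ⌉₊ + 1, ?_⟩
  intro H hH
  have hH1 : 1 ≤ H := by omega
  have hH1' : (1 : ℝ) ≤ H := by exact_mod_cast hH1
  have hH2 : M / θ ≤ H := by
    have h1 := Nat.le_ceil (M / θ)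
    have h2 : ((⌈M / θ⌉₊ : ℕ) : ℝ) ≤ H := by
      have : ⌈M / θ⌉₊ ≤ H := by omega
      exact_mod_cast this
    linarith
  rw [div_le_iff₀ hθ0] at hH2
  obtain ⟨t, ht⟩ : ∃ t : ℝ, t = H / (V + ε) := ⟨_, rfl⟩
  have ht0 : 0 < t := by rw [ht]; positivity
  have htV : t * (V + ε) = H := by rw [ht]; field_simp
  have htε : ε * t = θ * H := by
    rw [← hθV, ← htV]
    ring
  -- the sets of coefficients
  obtain ⟨S, hS⟩ : ∃ S : (k : ι) → Fin (e k + 2) → Finset ℤ, S = fun k j =>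
      (Icc (-(H : ℤ)) H).filter fun n => (M : ℤ) ∣ n - γ k j ∧
        |(n : ℝ) - t * v k j| ≤ ε * t := ⟨_, rfl⟩
  have hcard : ∀ k j, θ / 3 * ((2 * H + 1 : ℕ) / M) ≤ ((S k j).card : ℝ) := by
    intro k j
    have key : θ / 3 * (((2 * H + 1 : ℕ) : ℝ) / M) ≤ (t * v k j + ε * t - (t * v k j - ε * t)) / M - 1 := by
      have e1 : (t * v k j + ε * t - (t * v k j - ε * t)) / M - 1 = (2 * (θ * H) - M) / M := by
        rw [← htε]
        field_simp
        ring
      rw [e1, ← mul_div_assoc]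
      apply div_le_div_of_nonneg_right _ hM0.le
      push_cast
      nlinarith
    refine key.trans (count M hM (γ k j) _ _ (S k j) ?_)
    intro n hn1 hn2 hn3
    rw [hS]
    simp only [mem_filter, mem_Icc]
    have hn6 : |(n : ℝ) - t * v k j| ≤ ε * t := abs_le.2 ⟨by linarith, by linarith⟩
    have hv := abs_le.1 (hVk k j)
    have hv1 : t * v k j ≤ t * V := mul_le_mul_of_nonneg_left hv.2 ht0.le
    have hv2 : t * -V ≤ t * v k j := mul_le_mul_of_nonneg_left hv.1 ht0.le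
    have hn4 : (n : ℝ) ≤ H := by
      rw [← htV]
      linarith
    have hn5 : -(H : ℝ) ≤ (n : ℝ) := by
      rw [← htV]
      linarith
    refine ⟨⟨?_, ?_⟩, hn3, hn6⟩
    · exact_mod_cast hn5
    · exact_mod_cast hn4
  -- the product set
  have hsub : Fintype.piFinset (fun k => Fintype.piFinset (S k)) ⊆
      (BXI e H).filter (fun c => (∀ k j, (M : ℤ) ∣ c k j - γ k j) ∧
        ∃ t : ℝ, 0 < t ∧ ∀ k j, |(c k j : ℝ) - t * v k j| ≤ ε * t) := by
    intro c hc
    have hc' : ∀ k j, c k j ∈ S k j := by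
      intro k j
      exact Fintype.mem_piFinset.1 (Fintype.mem_piFinset.1 hc k) j
    rw [hS] at hc'
    simp only [mem_filter, mem_Icc] at hc'
    rw [mem_filter]
    refine ⟨?_, fun k j => (hc' k j).2.1, t, ht0, fun k j => (hc' k j).2.2⟩
    unfold BXI
    rw [Fintype.mem_piFinset]
    intro k
    rw [Fintype.mem_piFinset]
    intro j
    exact mem_Icc.2 (hc' k j).1
  have hcard2 : (((Fintype.piFinset (fun k => Fintype.piFinset (S k))).card : ℕ) : ℝ) =
      ∏ k, ∏ j, ((S k j).card : ℝ) := by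
    rw [Fintype.card_piFinset]
    push_cast
    refine prod_congr rfl fun k _ => ?_
    rw [Fintype.card_piFinset]
    push_cast
    rfl
  have hprod : (θ / 3 * (((2 * H + 1 : ℕ) : ℝ) / M)) ^ ncI e ≤ ∏ k, ∏ j, ((S k j).card : ℝ) := by
    have e1 : (θ / 3 * (((2 * H + 1 : ℕ) : ℝ) / M)) ^ ncI e =
        ∏ k : ι, ∏ _j : Fin (e k + 2), (θ / 3 * (((2 * H + 1 : ℕ) : ℝ) / M)) := by
      unfold ncI
      rw [← prod_pow_eq_pow_sum]
      refine prod_congr rfl fun k _ => ?_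
      rw [prod_const, card_univ, Fintype.card_fin]
    rw [e1]
    refine prod_le_prod (fun k _ => by positivity) fun k _ => ?_
    exact prod_le_prod (fun j _ => by positivity) fun j _ => hcard k j
  calc (θ / 3) ^ ncI e * (((2 * H + 1 : ℕ) : ℝ) / M) ^ ncI e
      = (θ / 3 * (((2 * H + 1 : ℕ) : ℝ) / M)) ^ ncI e := (mul_pow _ _ _).symm
    _ ≤ ∏ k, ∏ j, ((S k j).card : ℝ) := hprod
    _ = (((Fintype.piFinset (fun k => Fintype.piFinset (S k))).card : ℕ) : ℝ) := hcard2.symm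
    _ ≤ _ := by
      exact_mod_cast card_le_card hsub

end Pool.Agent.N919.GC
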